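import Pool.Agent.H.MP_9991fb_an.C

namespace Pool.Agent.Results.MP_f735f2_an.No

theorem result : ∃ (X : Type) (_ : NormedAddCommGroup X) (_ : NormedSpace ℝ X)
    (_ : CompleteSpace X),
    (∀ (A B : Type) [NormedAddCommGroup A] [NormedSpace ℝ A] [CompleteSpace A]
      [TopologicalSpace.SeparableSpace A] [NormedAddCommGroup B] [NormedSpace ℝ B]
      [CompleteSpace B] [TopologicalSpace.SeparableSpace B] (u : A →ₗᵢ[ℝ] X) (i : A →ₗᵢ[ℝ] B),
      ∃ w : B →ₗᵢ[ℝ] X, ∀ a, w (i a) = u a) ∧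
    ∃ (E F : Submodule ℝ X) (h : E ≃ₗᵢ[ℝ] F), IsClosed (E : Set X) ∧ IsClosed (F : Set X) ∧
      TopologicalSpace.SeparableSpace E ∧ TopologicalSpace.SeparableSpace F ∧
      ¬ ∃ U : X ≃ₗᵢ[ℝ] X, ∀ e : E, U e = h e := by
  obtain ⟨X, i1, i2, i3, h1, E, F, h, hE, hF, h2⟩ := Pool.Agent.H.MP_9991fb_an.main1
  have := Module.finite_of_finrank_eq_succ hE
  have := Module.finite_of_finrank_eq_succ hF
  have := FiniteDimensional.proper_real E
  have := FiniteDimensional.proper_real F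
  exact ⟨X, i1, i2, i3, fun A B _ _ _ _ _ _ _ _ u i => h1 A B u i, E, F, h,
    E.closed_of_finiteDimensional, F.closed_of_finiteDimensional, inferInstance, inferInstance, h2⟩

end Pool.Agent.Results.MP_f735f2_an.No
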